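import Pool.Agent.Lib.MP_776035_co.Tiling.Cover

/-!
# Periodic polygonal colourings of the plane

The triangles of a periodic triangulation are collected in groups; every group has a colour.  For
every two groups `g, h` of the same colour and every lattice vector `w` the convex hulls of `g` and
of `h + w` either have all their mutual distances less than a bound, or are separated by a strip
wider than a bound.
-/

set_option autoImplicit false

open Set Metric
open scoped Pointwise

namespace Pool.Agent.Lib.MP_776035_co.Tiling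

/-- a group: colour and vertices -/
structure Grp where
  col : ℕ
  vs : List (ℤ × ℤ)

/-- the convex hull of the vertices -/
noncomputable def Grp.hull (g : Grp) : Set Plane := convexHull ℝ {p | ∃ v ∈ g.vs, p = pt v}

/-- scalar product with an integer vector -/
def dotz (d v : ℤ × ℤ) : ℤ := d.1 * v.1 + d.2 * v.2

/-- scalar product with an integer vector -/
noncomputable def dotr (d : ℤ × ℤ) (p : Plane) : ℝ := (d.1 : ℝ) * p 0 + (d.2 : ℝ) * p 1

theorem dotr_pt (d v : ℤ × ℤ) : dotr d (pt v) = (dotz d v : ℝ) := by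
  simp only [dotr, dotz, pt_zero, pt_one]
  push_cast
  ring

theorem dotr_add (d : ℤ × ℤ) (p q : Plane) : dotr d (p + q) = dotr d p + dotr d q := by
  simp only [dotr, PiLp.add_apply]
  ring

theorem dotr_comb (d : ℤ × ℤ) (p q : Plane) (a b : ℝ) :
    dotr d (a • p + b • q) = a * dotr d p + b * dotr d q := by
  simp only [dotr, PiLp.add_apply, PiLp.smul_apply, smul_eq_mul]
  ring

theorem hull_le {g : Grp} {d : ℤ × ℤ} {α : ℤ} (h : ∀ v ∈ g.vs, dotz d v ≤ α) {p : Plane}
    (hp : p ∈ g.hull) : dotr d p ≤ α := by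
  have hconv : Convex ℝ {p : Plane | dotr d p ≤ α} := by
    intro x hx y hy a b ha hb hab
    rw [mem_ofPred_eq] at hx hy ⊢
    rw [dotr_comb]
    have h1 := mul_le_mul_of_nonneg_left hx ha
    have h2 := mul_le_mul_of_nonneg_left hy hb
    have h3 : a * (α : ℝ) + b * α = α := by rw [← add_mul, hab, one_mul]
    linarith
  have hsub : {p | ∃ v ∈ g.vs, p = pt v} ⊆ {p : Plane | dotr d p ≤ α} := by
    rintro _ ⟨v, hv, rfl⟩
    rw [mem_ofPred_eq, dotr_pt]
    exact_mod_cast h v hv
  exact convexHull_min hsub hconv hp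

theorem le_hull {g : Grp} {d : ℤ × ℤ} {β : ℤ} (h : ∀ v ∈ g.vs, β ≤ dotz d v) {p : Plane}
    (hp : p ∈ g.hull) : (β : ℝ) ≤ dotr d p := by
  have hconv : Convex ℝ {p : Plane | (β : ℝ) ≤ dotr d p} := by
    intro x hx y hy a b ha hb hab
    rw [mem_ofPred_eq] at hx hy ⊢
    rw [dotr_comb]
    have h1 := mul_le_mul_of_nonneg_left hx ha
    have h2 := mul_le_mul_of_nonneg_left hy hb
    have h3 : a * (β : ℝ) + b * β = β := by rw [← add_mul, hab, one_mul]
    linarith
  have hsub : {p | ∃ v ∈ g.vs, p = pt v} ⊆ {p : Plane | (β : ℝ) ≤ dotr d p} := by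
    rintro _ ⟨v, hv, rfl⟩
    rw [mem_ofPred_eq, dotr_pt]
    exact_mod_cast h v hv
  exact convexHull_min hsub hconv hp

theorem dist_sq (p q : Plane) : dist p q ^ 2 = (q 0 - p 0) ^ 2 + (q 1 - p 1) ^ 2 := by
  rw [EuclideanSpace.dist_eq, Real.sq_sqrt (Finset.sum_nonneg fun i _ => sq_nonneg _)]
  simp only [Fin.sum_univ_two, Real.dist_eq, sq_abs]
  ring

/-- Cauchy and Schwarz -/
theorem dotr_sq_le (d : ℤ × ℤ) (p q : Plane) :
    (dotr d q - dotr d p) ^ 2 ≤ ((d.1 : ℝ) ^ 2 + (d.2 : ℝ) ^ 2) * dist p q ^ 2 := by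
  rw [dist_sq]
  simp only [dotr]
  nlinarith [sq_nonneg ((d.1 : ℝ) * (q 1 - p 1) - (d.2 : ℝ) * (q 0 - p 0))]

/-- separation by a strip -/
theorem far {g h : Grp} {d w : ℤ × ℤ} {α β R : ℤ} (hR : 0 ≤ R) (h1 : ∀ v ∈ g.vs, dotz d v ≤ α)
    (h2 : ∀ v ∈ h.vs, β ≤ dotz d v) (h3 : α < β + dotz d w)
    (h4 : R ^ 2 * (d.1 ^ 2 + d.2 ^ 2) < (β + dotz d w - α) ^ 2) {p q : Plane} (hp : p ∈ g.hull)
    (hq : q ∈ h.hull) : (R : ℝ) < dist p (q + pt w) := by
  have e1 := hull_le h1 hp
  have e2 := le_hull h2 hq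
  have e3 : dotr d (q + pt w) = dotr d q + dotz d w := by rw [dotr_add, dotr_pt]
  have e4 := dotr_sq_le d p (q + pt w)
  have h3' : (α : ℝ) < β + dotz d w := by exact_mod_cast h3
  have h4' : (R : ℝ) ^ 2 * ((d.1 : ℝ) ^ 2 + (d.2 : ℝ) ^ 2) < ((β : ℝ) + dotz d w - α) ^ 2 := by
    exact_mod_cast h4
  have hR' : (0 : ℝ) ≤ R := by exact_mod_cast hR
  have e5 : (β : ℝ) + dotz d w - α ≤ dotr d (q + pt w) - dotr d p := by
    rw [e3]
    linarith
  have e6 : ((β : ℝ) + dotz d w - α) ^ 2 ≤ (dotr d (q + pt w) - dotr d p) ^ 2 :=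
    pow_le_pow_left₀ (by linarith) e5 2
  by_contra hcon
  push Not at hcon
  have e7 : dist p (q + pt w) ^ 2 ≤ (R : ℝ) ^ 2 := pow_le_pow_left₀ dist_nonneg hcon 2
  have e8 : (0 : ℝ) ≤ (d.1 : ℝ) ^ 2 + (d.2 : ℝ) ^ 2 := by positivity
  have e9 := mul_le_mul_of_nonneg_left e7 e8
  linarith

/-- short distances -/
theorem near {g h : Grp} {w : ℤ × ℤ} {R : ℤ} (hR : 0 < R)
    (h1 : ∀ u ∈ g.vs, ∀ v ∈ h.vs, (v.1 + w.1 - u.1) ^ 2 + (v.2 + w.2 - u.2) ^ 2 < R ^ 2)
    {p q : Plane} (hp : p ∈ g.hull) (hq : q ∈ h.hull) : dist p (q + pt w) < R := by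
  have hR' : (0 : ℝ) < R := by exact_mod_cast hR
  obtain ⟨p', ⟨u, hu, rfl⟩, q', ⟨v, hv, rfl⟩, hle⟩ :=
    convexHull_exists_dist_ge2 (x := p - pt w) (y := q)
      (s := {p | ∃ v ∈ g.vs, p = pt v - pt w}) (t := {p | ∃ v ∈ h.vs, p = pt v}) (by
        have e : {p : Plane | ∃ v ∈ g.vs, p = pt v - pt w} =
            {p | ∃ v ∈ g.vs, p = pt v} + {-pt w} := by
          ext z
          simp only [mem_ofPred_eq, Set.add_singleton, mem_image]
          constructor
          · rintro ⟨v, hv, rfl⟩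
            exact ⟨pt v, ⟨v, hv, rfl⟩, by rw [sub_eq_add_neg]⟩
          · rintro ⟨_, ⟨v, hv, rfl⟩, rfl⟩
            exact ⟨v, hv, by rw [sub_eq_add_neg]⟩
        rw [e, convexHull_add, convexHull_singleton, sub_eq_add_neg]
        exact Set.add_mem_add hp (mem_singleton _)) hq
  have e1 : dist p (q + pt w) = dist (p - pt w) q := by
    rw [dist_eq_norm, dist_eq_norm]
    congr 1
    abel
  rw [e1]
  refine lt_of_le_of_lt hle ?_
  have h2 := h1 u hu v hv
  have h3 : dist (pt u - pt w) (pt v) ^ 2 < (R : ℝ) ^ 2 := by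
    rw [dist_sq]
    simp only [PiLp.sub_apply, pt_zero, pt_one]
    have h4 : (((v.1 : ℝ) + w.1 - u.1) ^ 2 + ((v.2 : ℝ) + w.2 - u.2) ^ 2 : ℝ) < (R : ℝ) ^ 2 := by
      exact_mod_cast h2
    calc ((v.1 : ℝ) - (u.1 - w.1)) ^ 2 + ((v.2 : ℝ) - (u.2 - w.2)) ^ 2
        = ((v.1 : ℝ) + w.1 - u.1) ^ 2 + ((v.2 : ℝ) + w.2 - u.2) ^ 2 := by ring
      _ < _ := h4
  exact lt_of_pow_lt_pow_left₀ 2 hR'.le h3

/-! ### the checks -/

/-- the maximum of `dotz d` over a list (at least `z`) -/
def maxDot (d : ℤ × ℤ) (l : List (ℤ × ℤ)) (z : ℤ) : ℤ := l.foldr (fun v r => max (dotz d v) r) z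

/-- the minimum of `dotz d` over a list (at most `z`) -/
def minDot (d : ℤ × ℤ) (l : List (ℤ × ℤ)) (z : ℤ) : ℤ := l.foldr (fun v r => min (dotz d v) r) z

theorem le_maxDot (d : ℤ × ℤ) (l : List (ℤ × ℤ)) (z : ℤ) : ∀ v ∈ l, dotz d v ≤ maxDot d l z := by
  induction l with
  | nil => intro v hv; exact absurd hv List.not_mem_nil
  | cons a l ih =>
    intro v hv
    unfold maxDot
    rw [List.foldr_cons]
    rcases List.mem_cons.1 hv with rfl | hv
    · exact le_max_left _ _
    · exact (ih v hv).trans (le_max_right _ _)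

theorem minDot_le (d : ℤ × ℤ) (l : List (ℤ × ℤ)) (z : ℤ) : ∀ v ∈ l, minDot d l z ≤ dotz d v := by
  induction l with
  | nil => intro v hv; exact absurd hv List.not_mem_nil
  | cons a l ih =>
    intro v hv
    unfold minDot
    rw [List.foldr_cons]
    rcases List.mem_cons.1 hv with rfl | hv
    · exact min_le_left _ _
    · exact (min_le_right _ _).trans (ih v hv)

/-- the data of a periodic colouring -/
structure Data where
  La : ℤ
  Lb : ℤ
  Lc : ℤ
  T : List Tri
  G : List Grp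
  /-- the unit -/
  M : ℤ
  lo : ℤ
  hi : ℤ
  Y0 : ℤ
  Y1 : ℤ
  X0 : ℤ
  X1 : ℤ
  Mm : ℤ
  Nn : ℤ
  S : List (ℤ × ℤ)
  cert : List (ℤ × ℤ)

namespace Data

variable (D : Data)

/-- the bound for short distances in the colour `i` -/
def rlo (i : ℕ) : ℤ := if i == 5 then D.lo else D.M

/-- the bound for long distances in the colour `i` -/
def rhi (i : ℕ) : ℤ := if i == 5 then D.hi else D.M

/-- the check for two groups and a translation -/
def pairOK (g h : Grp) (s c : ℤ × ℤ) : Bool :=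
  if c.1 == 0 && c.2 == 0 then
    g.vs.all fun u => h.vs.all fun v =>
      decide ((v.1 + (lat D.La D.Lb D.Lc s).1 - u.1) ^ 2 +
        (v.2 + (lat D.La D.Lb D.Lc s).2 - u.2) ^ 2 < D.rlo g.col ^ 2)
  else
    let α := maxDot c g.vs (-1000000000000000000000)
    let β := minDot c h.vs 1000000000000000000000 + dotz c (lat D.La D.Lb D.Lc s)
    decide (α < β) && decide (D.rhi g.col ^ 2 * (c.1 ^ 2 + c.2 ^ 2) < (β - α) ^ 2)

/-- all pairs of groups of the same colour with all translations of the list `S` -/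
def keys : List (Grp × Grp × (ℤ × ℤ)) :=
  D.G.flatMap fun g => D.G.flatMap fun h =>
    if g.col == h.col then D.S.map fun s => (g, h, s) else []

/-- check all pairs -/
def checkAll : List (Grp × Grp × (ℤ × ℤ)) → List (ℤ × ℤ) → Bool
  | [], _ => true
  | _ :: _, [] => false
  | k :: ks, c :: cs => D.pairOK k.1 k.2.1 k.2.2 c && checkAll ks cs

/-- the triangle has its vertices in its group -/
def grpOK (t : Tri) : Bool :=
  match D.G[t.g]? with
  | none => false
  | some g => g.vs.contains t.a && g.vs.contains t.b && g.vs.contains t.c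

/-- colours and coordinates of a group -/
def boxOK (g : Grp) : Bool :=
  decide (g.col < 6) && g.vs.all fun v =>
    decide (D.X0 ≤ v.1) && decide (v.1 ≤ D.X1) && decide (D.Y0 ≤ v.2) && decide (v.2 ≤ D.Y1)

/-- translations outside the list `S` are large -/
def outOK : Bool :=
  decide (0 < D.M) && decide (0 < D.lo) && decide (D.lo ≤ D.hi) && decide (D.hi ≤ D.M) &&
    decide (0 ≤ D.Nn) && decide (0 ≤ D.Mm) &&
    decide (D.M < (D.Nn + 1) * D.Lc - (D.Y1 - D.Y0)) &&
    decide (D.M < (D.Mm + 1) * D.La - D.Nn * |D.Lb| - (D.X1 - D.X0)) &&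
    decide (D.S = (List.range (2 * D.Mm.toNat + 1)).flatMap fun i : ℕ =>
      (List.range (2 * D.Nn.toNat + 1)).map fun j : ℕ => ((i : ℤ) - D.Mm, (j : ℤ) - D.Nn))

/-- everything -/
def OK : Bool :=
  coverOK D.La D.Lb D.Lc D.T && D.T.all D.grpOK && D.G.all D.boxOK && D.outOK &&
    D.checkAll D.keys D.cert

end Data

theorem checkAll_mem (D : Data) : ∀ (ks : List (Grp × Grp × (ℤ × ℤ))) (cs : List (ℤ × ℤ)),
    D.checkAll ks cs = true → ∀ k ∈ ks, ∃ c, D.pairOK k.1 k.2.1 k.2.2 c = true := by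
  intro ks
  induction ks with
  | nil => intro cs _ k hk; exact absurd hk List.not_mem_nil
  | cons a ks ih =>
    intro cs h k hk
    cases cs with
    | nil =>
      unfold Data.checkAll at h
      exact absurd h (by decide)
    | cons c cs =>
      unfold Data.checkAll at h
      rw [Bool.and_eq_true] at h
      rcases List.mem_cons.1 hk with rfl | hk
      · exact ⟨c, h.1⟩
      · exact ih cs h.2 k hk

theorem pairOK_spec {D : Data} (hM : 0 < D.M) (hlo : 0 < D.lo) (hhi : D.lo ≤ D.hi) {g h : Grp}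
    {s c : ℤ × ℤ} (hok : D.pairOK g h s c = true) {p q : Plane} (hp : p ∈ g.hull)
    (hq : q ∈ h.hull) :
    dist p (q + pt (lat D.La D.Lb D.Lc s)) < D.rlo g.col ∨
      (D.rhi g.col : ℝ) < dist p (q + pt (lat D.La D.Lb D.Lc s)) := by
  have hrlo : 0 < D.rlo g.col := by
    unfold Data.rlo
    split_ifs <;> assumption
  have hrhi : 0 ≤ D.rhi g.col := by
    unfold Data.rhi
    split_ifs <;> omega
  unfold Data.pairOK at hok
  split_ifs at hok with hc
  · left
    simp only [List.all_eq_true, decide_eq_true_eq] at hok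
    exact near hrlo hok hp hq
  · right
    simp only [Bool.and_eq_true, decide_eq_true_eq] at hok
    refine far (d := c) (w := lat D.La D.Lb D.Lc s) hrhi (le_maxDot c g.vs _) (minDot_le c h.vs _)
      hok.1 hok.2 hp hq

theorem tri_subset_hull {D : Data} {t : Tri} (h : D.grpOK t = true) :
    ∃ g ∈ D.G, tri t.a t.b t.c ⊆ g.hull := by
  unfold Data.grpOK at h
  split at h
  · exact absurd h (by decide)
  · rename_i g hg
    refine ⟨g, List.mem_of_getElem? hg, ?_⟩
    simp only [Bool.and_eq_true, List.contains_iff_mem] at h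
    obtain ⟨⟨h1, h2⟩, h3⟩ := h
    unfold tri Grp.hull
    refine convexHull_mono ?_
    intro z hz
    simp only [mem_insert_iff, mem_singleton_iff] at hz
    rcases hz with rfl | rfl | rfl
    · exact ⟨_, h1, rfl⟩
    · exact ⟨_, h2, rfl⟩
    · exact ⟨_, h3, rfl⟩

/-- all pairs, all lattice vectors -/
theorem all_pairs {D : Data} (h : D.OK = true) {g k : Grp} (hg : g ∈ D.G) (hk : k ∈ D.G)
    (hcol : g.col = k.col) (s : ℤ × ℤ) {p q : Plane} (hp : p ∈ g.hull) (hq : q ∈ k.hull) :
    dist p (q + pt (lat D.La D.Lb D.Lc s)) < D.rlo g.col ∨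
      (D.rhi g.col : ℝ) < dist p (q + pt (lat D.La D.Lb D.Lc s)) := by
  unfold Data.OK at h
  simp only [Bool.and_eq_true, List.all_eq_true] at h
  obtain ⟨⟨⟨⟨hcov, -⟩, hbox⟩, hout⟩, hchk⟩ := h
  unfold coverOK at hcov
  simp only [Bool.and_eq_true, decide_eq_true_eq] at hcov
  obtain ⟨⟨⟨hLa, hLc⟩, -⟩, -⟩ := hcov
  unfold Data.outOK at hout
  simp only [Bool.and_eq_true, decide_eq_true_eq] at hout
  obtain ⟨⟨⟨⟨⟨⟨⟨⟨hM, hlo⟩, hlohi⟩, hhiM⟩, hNn⟩, hMm⟩, hY⟩, hX⟩, hS⟩ := hout
  have hrhi : D.rhi g.col ≤ D.M := by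
    unfold Data.rhi
    split_ifs
    · exact hhiM
    · exact le_rfl
  have hrhi0 : 0 ≤ D.rhi g.col := by
    unfold Data.rhi
    split_ifs <;> omega
  have hb : ∀ g ∈ D.G, ∀ v ∈ g.vs, D.X0 ≤ v.1 ∧ v.1 ≤ D.X1 ∧ D.Y0 ≤ v.2 ∧ v.2 ≤ D.Y1 := by
    intro g hg v hv
    have := hbox g hg
    unfold Data.boxOK at this
    simp only [Bool.and_eq_true, decide_eq_true_eq, List.all_eq_true] at this
    obtain ⟨-, h2⟩ := this
    obtain ⟨⟨⟨a1, a2⟩, a3⟩, a4⟩ := h2 v hv
    exact ⟨a1, a2, a3, a4⟩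
  -- large vertical translation
  have hfar : ∀ (d : ℤ × ℤ) (α β : ℤ), d.1 ^ 2 + d.2 ^ 2 = 1 → (∀ v ∈ g.vs, dotz d v ≤ α) →
      (∀ v ∈ k.vs, β ≤ dotz d v) → D.M < β + dotz d (lat D.La D.Lb D.Lc s) - α →
      (D.rhi g.col : ℝ) < dist p (q + pt (lat D.La D.Lb D.Lc s)) := by
    intro d α β hd h1 h2 h3
    refine far (d := d) (α := α) (β := β) hrhi0 h1 h2 (by omega) ?_ hp hq
    rw [hd, mul_one]
    exact pow_lt_pow_left₀ (by omega) hrhi0 (by norm_num)
  by_cases hn : |s.2| ≤ D.Nn
  · by_cases hm : |s.1| ≤ D.Mm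
    · have hmem : (g, k, s) ∈ D.keys := by
        unfold Data.keys
        rw [List.mem_flatMap]
        refine ⟨g, hg, ?_⟩
        rw [List.mem_flatMap]
        refine ⟨k, hk, ?_⟩
        rw [if_pos (by rw [hcol]; exact beq_self_eq_true _), List.mem_map]
        refine ⟨s, ?_, rfl⟩
        rw [hS, List.mem_flatMap]
        have hm' := abs_le.1 hm
        have hn' := abs_le.1 hn
        refine ⟨(s.1 + D.Mm).toNat, ?_, ?_⟩
        · rw [List.mem_range]
          omega
        · rw [List.mem_map]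
          refine ⟨(s.2 + D.Nn).toNat, ?_, ?_⟩
          · rw [List.mem_range]
            omega
          · ext
            · show (((s.1 + D.Mm).toNat : ℕ) : ℤ) - D.Mm = s.1
              omega
            · show (((s.2 + D.Nn).toNat : ℕ) : ℤ) - D.Nn = s.2
              omega
      obtain ⟨c, hc⟩ := checkAll_mem D _ _ hchk _ hmem
      exact pairOK_spec hM hlo hlohi hc hp hq
    · -- large horizontal translation
      right
      push Not at hm
      have hLb : |s.2 * D.Lb| ≤ D.Nn * |D.Lb| := by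
        rw [abs_mul]
        exact mul_le_mul_of_nonneg_right hn (abs_nonneg _)
      have hLb' := abs_le.1 hLb
      rcases lt_abs.1 hm with hm | hm
      · refine hfar (1, 0) D.X1 D.X0 (by norm_num) ?_ ?_ ?_
        · intro v hv
          have := hb g hg v hv
          simp only [dotz]
          omega
        · intro v hv
          have := hb k hk v hv
          simp only [dotz]
          omega
        · have h5 : (D.Mm + 1) * D.La ≤ s.1 * D.La := mul_le_mul_of_nonneg_right (by omega) hLa.le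
          simp only [dotz, lat]
          linarith [hLb'.1]
      · refine hfar (-1, 0) (-D.X0) (-D.X1) (by norm_num) ?_ ?_ ?_
        · intro v hv
          have := hb g hg v hv
          simp only [dotz]
          omega
        · intro v hv
          have := hb k hk v hv
          simp only [dotz]
          omega
        · have h5 : (D.Mm + 1) * D.La ≤ (-s.1) * D.La := mul_le_mul_of_nonneg_right (by omega) hLa.le
          simp only [dotz, lat]
          linarith [hLb'.2]
  · right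
    push Not at hn
    rcases lt_abs.1 hn with hn | hn
    · refine hfar (0, 1) D.Y1 D.Y0 (by norm_num) ?_ ?_ ?_
      · intro v hv
        have := hb g hg v hv
        simp only [dotz]
        omega
      · intro v hv
        have := hb k hk v hv
        simp only [dotz]
        omega
      · have h5 : (D.Nn + 1) * D.Lc ≤ s.2 * D.Lc := mul_le_mul_of_nonneg_right (by omega) hLc.le
        simp only [dotz, lat]
        linarith
    · refine hfar (0, -1) (-D.Y0) (-D.Y1) (by norm_num) ?_ ?_ ?_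
      · intro v hv
        have := hb g hg v hv
        simp only [dotz]
        omega
      · intro v hv
        have := hb k hk v hv
        simp only [dotz]
        omega
      · have h5 : (D.Nn + 1) * D.Lc ≤ (-s.2) * D.Lc := mul_le_mul_of_nonneg_right (by omega) hLc.le
        simp only [dotz, lat]
        linarith

/-- The colouring given by valid data. -/
theorem colouring {D : Data} (h : D.OK = true) (α : ℝ) (h1 : (D.lo : ℝ) ≤ α * D.M)
    (h2 : α * D.M ≤ D.hi) :
    ∃ c : Plane → Fin 6, (∀ p q, c p = c q → c p ≠ 5 → dist p q ≠ 1) ∧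
      ∀ p q, c p = 5 → c q = 5 → dist p q ≠ α := by
  have hpair := @all_pairs D h
  unfold Data.OK at h
  simp only [Bool.and_eq_true, List.all_eq_true] at h
  obtain ⟨⟨⟨⟨hcov, hgrp⟩, hbox⟩, hout⟩, -⟩ := h
  unfold Data.outOK at hout
  simp only [Bool.and_eq_true, decide_eq_true_eq] at hout
  obtain ⟨⟨⟨⟨⟨⟨⟨⟨hM, -⟩, -⟩, -⟩, -⟩, -⟩, -⟩, -⟩, -⟩ := hout
  have hM' : (0 : ℝ) < D.M := by exact_mod_cast hM
  have hex : ∀ p : Plane, ∃ g ∈ D.G, ∃ s : ℤ × ℤ,
      (D.M : ℝ) • p - pt (lat D.La D.Lb D.Lc s) ∈ g.hull := by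
    intro p
    obtain ⟨t, ht, s, hs⟩ := cover hcov ((D.M : ℝ) • p)
    obtain ⟨g, hg, hsub⟩ := tri_subset_hull (hgrp t ht)
    exact ⟨g, hg, s, hsub hs⟩
  choose g hg s hs using hex
  have hcol : ∀ p, (g p).col < 6 := by
    intro p
    have := hbox (g p) (hg p)
    unfold Data.boxOK at this
    simp only [Bool.and_eq_true, decide_eq_true_eq] at this
    exact this.1
  have key : ∀ p q, (g p).col = (g q).col →
      (D.M : ℝ) * dist p q < D.rlo (g p).col ∨ (D.rhi (g p).col : ℝ) < D.M * dist p q := by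
    intro p q hpq
    have h3 := hpair (hg p) (hg q) hpq (s q - s p) (hs p) (hs q)
    have h4 : dist ((D.M : ℝ) • p - pt (lat D.La D.Lb D.Lc (s p)))
        ((D.M : ℝ) • q - pt (lat D.La D.Lb D.Lc (s q)) + pt (lat D.La D.Lb D.Lc (s q - s p))) =
        D.M * dist p q := by
      have e1 : pt (lat D.La D.Lb D.Lc (s q)) =
          pt (lat D.La D.Lb D.Lc (s q - s p)) + pt (lat D.La D.Lb D.Lc (s p)) := by
        rw [← pt_add, ← lat_add, sub_add_cancel]
      rw [e1, dist_eq_norm]
      have e2 : (D.M : ℝ) • p - pt (lat D.La D.Lb D.Lc (s p)) -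
          ((D.M : ℝ) • q - (pt (lat D.La D.Lb D.Lc (s q - s p)) + pt (lat D.La D.Lb D.Lc (s p))) +
            pt (lat D.La D.Lb D.Lc (s q - s p))) = (D.M : ℝ) • (p - q) := by
        rw [smul_sub]
        abel
      rw [e2, norm_smul, Real.norm_of_nonneg hM'.le, dist_eq_norm]
    rw [h4] at h3
    exact h3
  refine ⟨fun p => ⟨(g p).col, hcol p⟩, ?_, ?_⟩
  · intro p q hpq h5 hd
    have h6 : (g p).col = (g q).col := congrArg Fin.val hpq
    have h7 : (g p).col ≠ 5 := fun h => h5 (Fin.ext h)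
    have h8 := key p q h6
    rw [hd, mul_one] at h8
    unfold Data.rlo Data.rhi at h8
    have h9 : ((g p).col == 5) = false := by simpa using h7
    rw [h9] at h8
    simp only [Bool.false_eq_true, if_false, lt_irrefl, or_self] at h8
  · intro p q hp hq hd
    have hp' : (g p).col = 5 := congrArg Fin.val hp
    have hq' : (g q).col = 5 := congrArg Fin.val hq
    have h8 := key p q (hp'.trans hq'.symm)
    rw [hd, hp'] at h8
    unfold Data.rlo Data.rhi at h8
    simp only [beq_self_eq_true, if_true] at h8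
    rcases h8 with h8 | h8 <;> nlinarith

end Pool.Agent.Lib.MP_776035_co.Tiling
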