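import Mathlib

/-!
# Periodic triangulated tilings of the plane with integer vertices: covering

A finite list of triangles with integer vertices and a lattice spanned by `(La, 0)` and `(Lb, Lc)`.
If every edge of every triangle is, reversed, an edge of a lattice translate of a triangle of the
list, then the translates of the triangles cover the plane: their union is closed, and off the
countable set of the integer points it is open, and the complement of a countable set is connected.
-/

set_option autoImplicit false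

open Set Metric
open scoped Pointwise

namespace Pool.Agent.Lib.MP_776035_co.Tiling

/-- the Euclidean plane -/
abbrev Plane := EuclideanSpace ℝ (Fin 2)

/-- the point with integer coordinates `z` -/
noncomputable def pt (z : ℤ × ℤ) : Plane := !₂[(z.1 : ℝ), (z.2 : ℝ)]

@[simp] theorem pt_zero (z : ℤ × ℤ) : pt z 0 = (z.1 : ℝ) := by simp [pt]

@[simp] theorem pt_one (z : ℤ × ℤ) : pt z 1 = (z.2 : ℝ) := by simp [pt]

theorem pt_add (z w : ℤ × ℤ) : pt (z + w) = pt z + pt w := by
  ext i
  fin_cases i <;> simp [pt]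

theorem pt_sub (z w : ℤ × ℤ) : pt (z - w) = pt z - pt w := by
  ext i
  fin_cases i <;> simp [pt]

/-- the cross product of `v - u` and `p - u` -/
noncomputable def cr (u v : ℤ × ℤ) (p : Plane) : ℝ :=
  ((v.1 : ℝ) - u.1) * (p 1 - u.2) - ((v.2 : ℝ) - u.2) * (p 0 - u.1)

/-- the cross product of `v - u` and `w - u` -/
def crz (u v w : ℤ × ℤ) : ℤ := (v.1 - u.1) * (w.2 - u.2) - (v.2 - u.2) * (w.1 - u.1)

theorem cr_pt (u v w : ℤ × ℤ) : cr u v (pt w) = (crz u v w : ℝ) := by
  simp only [cr, crz, pt_zero, pt_one]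
  push_cast
  ring

theorem cr_continuous (u v : ℤ × ℤ) : Continuous (cr u v) := by
  unfold cr
  fun_prop

theorem cr_swap (u v : ℤ × ℤ) (p : Plane) : cr v u p = -cr u v p := by
  unfold cr
  ring

theorem cr_sub (u v s : ℤ × ℤ) (p : Plane) : cr u v (p - pt s) = cr (u + s) (v + s) p := by
  simp only [cr, PiLp.sub_apply, pt_zero, pt_one, Prod.fst_add, Prod.snd_add]
  push_cast
  ring

theorem cr_comb (u v : ℤ × ℤ) (x y : Plane) (a b : ℝ) (hab : a + b = 1) :
    cr u v (a • x + b • y) = a * cr u v x + b * cr u v y := by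
  simp only [cr, PiLp.add_apply, PiLp.smul_apply, smul_eq_mul]
  linear_combination ((((v.1 : ℝ) - u.1) * u.2 - ((v.2 : ℝ) - u.2) * u.1)) * hab

theorem cr_convex (u v : ℤ × ℤ) : Convex ℝ {p | 0 ≤ cr u v p} := by
  intro x hx y hy a b ha hb hab
  rw [mem_ofPred_eq] at hx hy ⊢
  rw [cr_comb u v x y a b hab]
  positivity

/-- the closed triangle with vertices `a, b, c` -/
noncomputable def tri (a b c : ℤ × ℤ) : Set Plane := convexHull ℝ {pt a, pt b, pt c}

theorem mem_tri_iff {a b c : ℤ × ℤ} (h : 0 < crz a b c) (p : Plane) :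
    p ∈ tri a b c ↔ 0 ≤ cr a b p ∧ 0 ≤ cr b c p ∧ 0 ≤ cr c a p := by
  have hS : (0 : ℝ) < crz a b c := by exact_mod_cast h
  constructor
  · intro hp
    have key : ∀ u v : ℤ × ℤ, 0 ≤ crz u v a → 0 ≤ crz u v b → 0 ≤ crz u v c → 0 ≤ cr u v p := by
      intro u v h1 h2 h3
      have hsub : ({pt a, pt b, pt c} : Set Plane) ⊆ {p | 0 ≤ cr u v p} := by
        intro q hq
        simp only [mem_insert_iff, mem_singleton_iff] at hq
        rcases hq with rfl | rfl | rfl
        · rw [mem_ofPred_eq, cr_pt]; exact_mod_cast h1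
        · rw [mem_ofPred_eq, cr_pt]; exact_mod_cast h2
        · rw [mem_ofPred_eq, cr_pt]; exact_mod_cast h3
      exact convexHull_min hsub (cr_convex u v) hp
    have e1 : crz a b a = 0 := by unfold crz; ring
    have e2 : crz a b b = 0 := by unfold crz; ring
    have e3 : crz b c a = crz a b c := by unfold crz; ring
    have e4 : crz b c b = 0 := by unfold crz; ring
    have e5 : crz b c c = 0 := by unfold crz; ring
    have e6 : crz c a a = 0 := by unfold crz; ring
    have e7 : crz c a b = crz a b c := by unfold crz; ring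
    have e8 : crz c a c = 0 := by unfold crz; ring
    exact ⟨key a b e1.ge e2.ge h.le, key b c (by omega) e4.ge e5.ge, key c a e6.ge (by omega) e8.ge⟩
  · rintro ⟨h1, h2, h3⟩
    have hsum : cr b c p + cr c a p + cr a b p = crz a b c := by
      simp only [cr, crz]
      push_cast
      ring
    have hp : p = (cr b c p / crz a b c) • pt a + (cr c a p / crz a b c) • pt b +
        (cr a b p / crz a b c) • pt c := by
      ext i
      fin_cases i
      · simp only [Fin.zero_eta, PiLp.add_apply, PiLp.smul_apply, pt_zero, smul_eq_mul]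
        field_simp
        simp only [cr, crz]
        push_cast
        ring
      · simp only [Fin.mk_one, PiLp.add_apply, PiLp.smul_apply, pt_one, smul_eq_mul]
        field_simp
        simp only [cr, crz]
        push_cast
        ring
    rw [hp]
    unfold tri
    have hc := convex_convexHull ℝ ({pt a, pt b, pt c} : Set Plane)
    have ha : pt a ∈ convexHull ℝ ({pt a, pt b, pt c} : Set Plane) :=
      subset_convexHull ℝ _ (by simp)
    have hb : pt b ∈ convexHull ℝ ({pt a, pt b, pt c} : Set Plane) :=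
      subset_convexHull ℝ _ (by simp)
    have hcc : pt c ∈ convexHull ℝ ({pt a, pt b, pt c} : Set Plane) :=
      subset_convexHull ℝ _ (by simp)
    have := hc.sum_mem (t := Finset.univ) (w := ![cr b c p / crz a b c, cr c a p / crz a b c,
      cr a b p / crz a b c]) (z := ![pt a, pt b, pt c]) ?_ ?_ ?_
    · simpa [Fin.sum_univ_three] using this
    · intro i _
      fin_cases i
      · exact div_nonneg h2 hS.le
      · exact div_nonneg h3 hS.le
      · exact div_nonneg h1 hS.le
    · simp only [Fin.sum_univ_three, Matrix.cons_val_zero, Matrix.cons_val_one,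
        Matrix.cons_val_two, Matrix.head_cons, Matrix.tail_cons]
      rw [← add_div, ← add_div, hsum, div_self hS.ne']
    · intro i _
      fin_cases i
      · exact ha
      · exact hb
      · exact hcc

theorem tri_isCompact (a b c : ℤ × ℤ) : IsCompact (tri a b c) :=
  Set.Finite.isCompact_convexHull ℝ (Set.toFinite _)

/-- the lattice vector `m (La, 0) + n (Lb, Lc)` -/
def lat (La Lb Lc : ℤ) (s : ℤ × ℤ) : ℤ × ℤ := (s.1 * La + s.2 * Lb, s.2 * Lc)

theorem lat_add (La Lb Lc : ℤ) (s t : ℤ × ℤ) :
    lat La Lb Lc (s + t) = lat La Lb Lc s + lat La Lb Lc t := by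
  unfold lat
  ext
  · simp only [Prod.fst_add, Prod.snd_add]; ring
  · simp only [Prod.snd_add]; ring

theorem isClosed_lat {La Lb Lc : ℤ} (ha : 0 < La) (hc : 0 < Lc) :
    IsClosed (range fun s : ℤ × ℤ => pt (lat La Lb Lc s)) := by
  have ha' : (La : ℝ) ≠ 0 := by exact_mod_cast ha.ne'
  have hc' : (Lc : ℝ) ≠ 0 := by exact_mod_cast hc.ne'
  have e : (range fun s : ℤ × ℤ => pt (lat La Lb Lc s)) =
      {p : Plane | p 1 / Lc ∈ range ((↑) : ℤ → ℝ)} ∩
        {p : Plane | (p 0 - p 1 / Lc * Lb) / La ∈ range ((↑) : ℤ → ℝ)} := by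
    ext p
    constructor
    · rintro ⟨s, rfl⟩
      refine ⟨⟨s.2, ?_⟩, ⟨s.1, ?_⟩⟩
      · simp only [pt_one, lat]
        push_cast
        field_simp
      · simp only [pt_one, pt_zero, lat]
        push_cast
        field_simp
        ring
    · rintro ⟨⟨n, hn⟩, ⟨m, hm⟩⟩
      refine ⟨(m, n), ?_⟩
      rw [eq_div_iff hc'] at hn
      rw [eq_div_iff ha'] at hm
      ext i
      fin_cases i
      · simp only [Fin.zero_eta, pt_zero, lat]
        push_cast
        have h2 : p 1 / Lc = n := by rw [← hn]; field_simp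
        rw [h2] at hm
        linarith
      · simp only [Fin.mk_one, pt_one, lat]
        push_cast
        exact hn
  rw [e]
  have hr : IsClosed (range ((↑) : ℤ → ℝ)) := Int.isClosedEmbedding_coe_real.isClosed_range
  refine IsClosed.inter (hr.preimage ?_) (hr.preimage ?_) <;> fun_prop

/-- A triangle with its group number and, for each of the edges `ab`, `bc`, `ca`, the number of the
neighbouring triangle and the lattice coordinates of the translation. -/
structure Tri where
  a : ℤ × ℤ
  b : ℤ × ℤ
  c : ℤ × ℤ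
  g : ℕ
  n1 : ℕ
  s1 : ℤ × ℤ
  n2 : ℕ
  s2 : ℤ × ℤ
  n3 : ℕ
  s3 : ℤ × ℤ

/-- `x → y` is an edge of `t` -/
def Tri.has (t : Tri) (x y : ℤ × ℤ) : Bool :=
  (t.a == x && t.b == y) || (t.b == x && t.c == y) || (t.c == x && t.a == y)

/-- the edge `y → x` belongs to the translate by `s` of the triangle number `j` -/
def nbOK (La Lb Lc : ℤ) (T : List Tri) (x y : ℤ × ℤ) (j : ℕ) (s : ℤ × ℤ) : Bool :=
  match T[j]? with
  | none => false
  | some t => t.has (y - lat La Lb Lc s) (x - lat La Lb Lc s)

/-- orientation and neighbours of a triangle -/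
def triOK (La Lb Lc : ℤ) (T : List Tri) (t : Tri) : Bool :=
  decide (0 < crz t.a t.b t.c) && nbOK La Lb Lc T t.a t.b t.n1 t.s1 &&
    nbOK La Lb Lc T t.b t.c t.n2 t.s2 && nbOK La Lb Lc T t.c t.a t.n3 t.s3

/-- the check for the covering -/
def coverOK (La Lb Lc : ℤ) (T : List Tri) : Bool :=
  decide (0 < La) && decide (0 < Lc) && !T.isEmpty && T.all (triOK La Lb Lc T)

section
variable {La Lb Lc : ℤ} {T : List Tri}

/-- the union of all translates -/
def U (La Lb Lc : ℤ) (T : List Tri) : Set Plane :=
  {p | ∃ t ∈ T, ∃ s : ℤ × ℤ, p - pt (lat La Lb Lc s) ∈ tri t.a t.b t.c}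

theorem isClosed_U (ha : 0 < La) (hc : 0 < Lc) : IsClosed (U La Lb Lc T) := by
  have e : U La Lb Lc T = ⋃ t ∈ {t | t ∈ T},
      ((range fun s : ℤ × ℤ => pt (lat La Lb Lc s)) + tri t.a t.b t.c) := by
    ext p
    simp only [U, mem_ofPred_eq, mem_iUnion, exists_prop]
    constructor
    · rintro ⟨t, ht, s, hs⟩
      refine ⟨t, ht, Set.mem_add.2 ⟨_, ⟨s, rfl⟩, _, hs, ?_⟩⟩
      exact add_sub_cancel _ _
    · rintro ⟨t, ht, hp⟩
      obtain ⟨_, ⟨s, rfl⟩, q, hq, rfl⟩ := Set.mem_add.1 hp
      refine ⟨t, ht, s, ?_⟩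
      rwa [add_sub_cancel_left]
  rw [e]
  refine Set.Finite.isClosed_biUnion (List.finite_toSet T) fun t _ => ?_
  exact IsClosed.add_right_of_isCompact (isClosed_lat ha hc) (tri_isCompact _ _ _)

/-- The local argument at a point of the open edge `a b`. -/
theorem edge_nhds {a b c x y z : ℤ × ℤ} (h1 : 0 < crz a b c) (h2 : 0 < crz x y z)
    (v : ℤ × ℤ) (hx : x + v = b) (hy : y + v = a) {p : Plane}
    (hab : cr a b p = 0) (hbc : 0 < cr b c p) (hca : 0 < cr c a p) :
    ∀ᶠ q in nhds p, q ∈ tri a b c ∨ q - pt v ∈ tri x y z := by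
  subst hx hy
  have hS1 : (0 : ℝ) < crz (y + v) (x + v) c := by exact_mod_cast h1
  have hS2 : (0 : ℝ) < crz x y z := by exact_mod_cast h2
  have k1 : (crz (y + v) (x + v) c : ℝ) * cr y z (p - pt v) = cr c (y + v) p * crz x y z := by
    have : (crz (y + v) (x + v) c : ℝ) * cr y z (p - pt v) - cr c (y + v) p * crz x y z =
        cr (y + v) (x + v) p * crz y z (c - v) := by
      simp only [cr, crz, PiLp.sub_apply, pt_zero, pt_one, Prod.fst_add, Prod.snd_add,
        Prod.fst_sub, Prod.snd_sub]
      push_cast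
      ring
    rw [hab, zero_mul] at this
    linarith
  have k2 : (crz (y + v) (x + v) c : ℝ) * cr z x (p - pt v) = cr (x + v) c p * crz x y z := by
    have : (crz (y + v) (x + v) c : ℝ) * cr z x (p - pt v) - cr (x + v) c p * crz x y z =
        cr (y + v) (x + v) p * crz z x (c - v) := by
      simp only [cr, crz, PiLp.sub_apply, pt_zero, pt_one, Prod.fst_add, Prod.snd_add,
        Prod.fst_sub, Prod.snd_sub]
      push_cast
      ring
    rw [hab, zero_mul] at this
    linarith
  have p1 : 0 < cr y z (p - pt v) := by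
    have : 0 < (crz (y + v) (x + v) c : ℝ) * cr y z (p - pt v) := by rw [k1]; positivity
    exact (pos_iff_pos_of_mul_pos this).1 hS1
  have p2 : 0 < cr z x (p - pt v) := by
    have : 0 < (crz (y + v) (x + v) c : ℝ) * cr z x (p - pt v) := by rw [k2]; positivity
    exact (pos_iff_pos_of_mul_pos this).1 hS1
  have c1 : ∀ᶠ q in nhds p, 0 < cr (x + v) c q :=
    (cr_continuous _ _).continuousAt.eventually (lt_mem_nhds hbc)
  have c2 : ∀ᶠ q in nhds p, 0 < cr c (y + v) q :=
    (cr_continuous _ _).continuousAt.eventually (lt_mem_nhds hca)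
  have hsub : Continuous fun q : Plane => q - pt v := by fun_prop
  have c3 : ∀ᶠ q in nhds p, 0 < cr y z (q - pt v) :=
    ((cr_continuous _ _).comp hsub).continuousAt.eventually (lt_mem_nhds p1)
  have c4 : ∀ᶠ q in nhds p, 0 < cr z x (q - pt v) :=
    ((cr_continuous _ _).comp hsub).continuousAt.eventually (lt_mem_nhds p2)
  filter_upwards [c1, c2, c3, c4] with q q1 q2 q3 q4
  rcases le_or_gt 0 (cr (y + v) (x + v) q) with h | h
  · left
    rw [mem_tri_iff h1]
    exact ⟨h, q1.le, q2.le⟩
  · right
    rw [mem_tri_iff h2]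
    refine ⟨?_, q3.le, q4.le⟩
    rw [cr_sub, cr_swap]
    linarith

theorem has_cases {t : Tri} {x y : ℤ × ℤ} (h : t.has x y = true) :
    ∃ z, (tri x y z = tri t.a t.b t.c) ∧ crz x y z = crz t.a t.b t.c := by
  unfold Tri.has at h
  simp only [Bool.or_eq_true, Bool.and_eq_true, beq_iff_eq] at h
  rcases h with (⟨rfl, rfl⟩ | ⟨rfl, rfl⟩) | ⟨rfl, rfl⟩
  · exact ⟨t.c, rfl, rfl⟩
  · refine ⟨t.a, ?_, by unfold crz; ring⟩
    unfold tri
    congr 1
    ext q
    simp only [mem_insert_iff, mem_singleton_iff]
    tauto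
  · refine ⟨t.b, ?_, by unfold crz; ring⟩
    unfold tri
    congr 1
    ext q
    simp only [mem_insert_iff, mem_singleton_iff]
    tauto

theorem edge_interior {a b c : ℤ × ℤ} {j : ℕ} {s s' : ℤ × ℤ} {p : Plane}
    (hT : ∀ t ∈ T, 0 < crz t.a t.b t.c) (h1 : 0 < crz a b c) {t0 : Tri} (ht0 : t0 ∈ T)
    (ht0' : tri t0.a t0.b t0.c = tri a b c)
    (hn : nbOK La Lb Lc T a b j s = true)
    (hab : cr a b (p - pt (lat La Lb Lc s')) = 0) (hbc : 0 < cr b c (p - pt (lat La Lb Lc s')))
    (hca : 0 < cr c a (p - pt (lat La Lb Lc s'))) : p ∈ interior (U La Lb Lc T) := by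
  unfold nbOK at hn
  split at hn
  · exact absurd hn (by decide)
  · rename_i t ht
    have htT : t ∈ T := List.mem_of_getElem? ht
    obtain ⟨z, hz1, hz2⟩ := has_cases hn
    have h2 : 0 < crz (b - lat La Lb Lc s) (a - lat La Lb Lc s) z := by
      rw [hz2]
      exact hT t htT
    have h3 := edge_nhds h1 h2 (lat La Lb Lc s) (sub_add_cancel _ _) (sub_add_cancel _ _) hab hbc hca
    rw [mem_interior_iff_mem_nhds]
    have hsub : Continuous fun q : Plane => q - pt (lat La Lb Lc s') := by fun_prop
    have h4 : ∀ᶠ q in nhds p, (q - pt (lat La Lb Lc s') ∈ tri a b c ∨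
        q - pt (lat La Lb Lc s') - pt (lat La Lb Lc s) ∈
          tri (b - lat La Lb Lc s) (a - lat La Lb Lc s) z) :=
      hsub.continuousAt.eventually h3
    filter_upwards [h4] with q hq
    rcases hq with hq | hq
    · exact ⟨t0, ht0, s', by rwa [ht0']⟩
    · refine ⟨t, htT, s' + s, ?_⟩
      rw [lat_add, pt_add, ← sub_sub, ← hz1]
      exact hq

theorem two_zero {a b c : ℤ × ℤ} (h : 0 < crz a b c) {p : Plane} (h1 : cr a b p = 0)
    (h2 : cr b c p = 0) : p = pt b := by
  have hS : (0 : ℝ) < crz a b c := by exact_mod_cast h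
  have e0 : (crz a b c : ℝ) * (p 0 - b.1) = 0 := by
    have : (crz a b c : ℝ) * (p 0 - b.1) =
        cr a b p * ((c.1 : ℝ) - b.1) + cr b c p * ((a.1 : ℝ) - b.1) := by
      simp only [cr, crz]
      push_cast
      ring
    rw [this, h1, h2]
    ring
  have e1 : (crz a b c : ℝ) * (p 1 - b.2) = 0 := by
    have : (crz a b c : ℝ) * (p 1 - b.2) =
        cr a b p * ((c.2 : ℝ) - b.2) + cr b c p * ((a.2 : ℝ) - b.2) := by
      simp only [cr, crz]
      push_cast
      ring
    rw [this, h1, h2]
    ring
  have f0 := (mul_eq_zero.1 e0).resolve_left hS.ne'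
  have f1 := (mul_eq_zero.1 e1).resolve_left hS.ne'
  ext i
  fin_cases i
  · simp only [Fin.zero_eta, pt_zero]
    linarith
  · simp only [Fin.mk_one, pt_one]
    linarith

theorem cover (h : coverOK La Lb Lc T = true) (p : Plane) :
    ∃ t ∈ T, ∃ s : ℤ × ℤ, p - pt (lat La Lb Lc s) ∈ tri t.a t.b t.c := by
  unfold coverOK at h
  simp only [Bool.and_eq_true, decide_eq_true_eq, Bool.not_eq_true', List.all_eq_true] at h
  obtain ⟨⟨⟨ha, hc⟩, hne⟩, hall⟩ := h
  have hT : ∀ t ∈ T, 0 < crz t.a t.b t.c := by
    intro t ht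
    have := hall t ht
    unfold triOK at this
    simp only [Bool.and_eq_true, decide_eq_true_eq] at this
    exact this.1.1.1
  have hclosed : IsClosed (U La Lb Lc T) := isClosed_U ha hc
  have hcount : (range pt).Countable := countable_range pt
  have hrank : 1 < Module.rank ℝ Plane := by
    rw [← Module.finrank_eq_rank]
    simp
  have hconn : IsPreconnected (range pt)ᶜ :=
    (hcount.isPathConnected_compl_of_one_lt_rank hrank).isConnected.isPreconnected
  have hdense : Dense (range pt)ᶜ := hcount.dense_compl ℝ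
  -- off the integer points every point of the union is interior
  have hint : ∀ q ∈ (range pt)ᶜ, q ∈ U La Lb Lc T → q ∈ interior (U La Lb Lc T) := by
    rintro q hq ⟨t, ht, s, hs⟩
    have hpos := hT t ht
    have hok := hall t ht
    unfold triOK at hok
    simp only [Bool.and_eq_true, decide_eq_true_eq] at hok
    obtain ⟨⟨⟨-, o1⟩, o2⟩, o3⟩ := hok
    rw [mem_tri_iff hpos] at hs
    obtain ⟨g1, g2, g3⟩ := hs
    have hv : ∀ w, q - pt (lat La Lb Lc s) ≠ pt w := by
      intro w hw
      apply hq
      refine ⟨w + lat La Lb Lc s, ?_⟩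
      rw [pt_add, ← hw, sub_add_cancel]
    have hpos2 : 0 < crz t.b t.c t.a := by
      have : crz t.b t.c t.a = crz t.a t.b t.c := by unfold crz; ring
      omega
    have hpos3 : 0 < crz t.c t.a t.b := by
      have : crz t.c t.a t.b = crz t.a t.b t.c := by unfold crz; ring
      omega
    have et2 : tri t.a t.b t.c = tri t.b t.c t.a := by
      unfold tri
      congr 1
      ext q
      simp only [mem_insert_iff, mem_singleton_iff]
      tauto
    have et3 : tri t.a t.b t.c = tri t.c t.a t.b := by
      unfold tri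
      congr 1
      ext q
      simp only [mem_insert_iff, mem_singleton_iff]
      tauto
    rcases g1.eq_or_lt with g1 | g1
    · have g2' : 0 < cr t.b t.c (q - pt (lat La Lb Lc s)) := by
        rcases g2.eq_or_lt with g2 | g2
        · exact absurd (two_zero hpos g1.symm g2.symm) (hv _)
        · exact g2
      have g3' : 0 < cr t.c t.a (q - pt (lat La Lb Lc s)) := by
        rcases g3.eq_or_lt with g3 | g3
        · exact absurd (two_zero hpos3 g3.symm g1.symm) (hv _)
        · exact g3
      exact edge_interior hT hpos ht rfl o1 g1.symm g2' g3'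
    · rcases g2.eq_or_lt with g2 | g2
      · have g3' : 0 < cr t.c t.a (q - pt (lat La Lb Lc s)) := by
          rcases g3.eq_or_lt with g3 | g3
          · exact absurd (two_zero hpos2 g2.symm g3.symm) (hv _)
          · exact g3
        exact edge_interior hT hpos2 ht et2 o2 g2.symm g3' g1
      · rcases g3.eq_or_lt with g3 | g3
        · exact edge_interior hT hpos3 ht et3 o3 g3.symm g1 g2
        · rw [mem_interior_iff_mem_nhds]
          have hsub : Continuous fun q : Plane => q - pt (lat La Lb Lc s) := by fun_prop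
          have c1 : ∀ᶠ r in nhds q, 0 < cr t.a t.b (r - pt (lat La Lb Lc s)) :=
            ((cr_continuous _ _).comp hsub).continuousAt.eventually (lt_mem_nhds g1)
          have c2 : ∀ᶠ r in nhds q, 0 < cr t.b t.c (r - pt (lat La Lb Lc s)) :=
            ((cr_continuous _ _).comp hsub).continuousAt.eventually (lt_mem_nhds g2)
          have c3 : ∀ᶠ r in nhds q, 0 < cr t.c t.a (r - pt (lat La Lb Lc s)) :=
            ((cr_continuous _ _).comp hsub).continuousAt.eventually (lt_mem_nhds g3)
          filter_upwards [c1, c2, c3] with r r1 r2 r3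
          exact ⟨t, ht, s, (mem_tri_iff hpos _).2 ⟨r1.le, r2.le, r3.le⟩⟩
  -- the union has an interior point
  have hne' : (interior (U La Lb Lc T)).Nonempty := by
    cases hTl : T with
    | nil =>
      rw [hTl] at hne
      exact absurd hne (by decide)
    | cons t T' =>
      have ht : t ∈ T := by rw [hTl]; exact List.mem_cons_self
      rw [← hTl]
      have hpos := hT t ht
      have hS : (0 : ℝ) < crz t.a t.b t.c := by exact_mod_cast hpos
      obtain ⟨q, hq⟩ : ∃ q : Plane, q = !₂[((t.a.1 : ℝ) + t.b.1 + t.c.1) / 3,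
        ((t.a.2 : ℝ) + t.b.2 + t.c.2) / 3] := ⟨_, rfl⟩
      have q0 : q 0 = ((t.a.1 : ℝ) + t.b.1 + t.c.1) / 3 := by rw [hq]; simp
      have q1 : q 1 = ((t.a.2 : ℝ) + t.b.2 + t.c.2) / 3 := by rw [hq]; simp
      have g1 : 0 < cr t.a t.b q := by
        have : cr t.a t.b q = (crz t.a t.b t.c : ℝ) / 3 := by
          simp only [cr, crz, q0, q1]
          push_cast
          ring
        rw [this]; positivity
      have g2 : 0 < cr t.b t.c q := by
        have : cr t.b t.c q = (crz t.a t.b t.c : ℝ) / 3 := by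
          simp only [cr, crz, q0, q1]
          push_cast
          ring
        rw [this]; positivity
      have g3 : 0 < cr t.c t.a q := by
        have : cr t.c t.a q = (crz t.a t.b t.c : ℝ) / 3 := by
          simp only [cr, crz, q0, q1]
          push_cast
          ring
        rw [this]; positivity
      refine ⟨q, ?_⟩
      rw [mem_interior_iff_mem_nhds]
      have c1 : ∀ᶠ r in nhds q, 0 < cr t.a t.b r :=
        (cr_continuous _ _).continuousAt.eventually (lt_mem_nhds g1)
      have c2 : ∀ᶠ r in nhds q, 0 < cr t.b t.c r :=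
        (cr_continuous _ _).continuousAt.eventually (lt_mem_nhds g2)
      have c3 : ∀ᶠ r in nhds q, 0 < cr t.c t.a r :=
        (cr_continuous _ _).continuousAt.eventually (lt_mem_nhds g3)
      filter_upwards [c1, c2, c3] with r r1 r2 r3
      refine ⟨t, ht, 0, ?_⟩
      have : pt (lat La Lb Lc 0) = 0 := by
        ext i
        fin_cases i <;> simp [pt, lat]
      rw [this, sub_zero]
      exact (mem_tri_iff hpos _).2 ⟨r1.le, r2.le, r3.le⟩
  have hsub1 : (range pt)ᶜ ⊆ interior (U La Lb Lc T) := by
    refine hconn.subset_left_of_subset_union isOpen_interior hclosed.isOpen_compl ?_ ?_ ?_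
    · rw [Set.disjoint_compl_right_iff_subset]
      exact interior_subset
    · intro q hq
      by_cases hqU : q ∈ U La Lb Lc T
      · exact Or.inl (hint q hq hqU)
      · exact Or.inr hqU
    · obtain ⟨q, hq⟩ := hdense.inter_open_nonempty _ isOpen_interior hne'
      exact ⟨q, hq.2, hq.1⟩
  have huniv : U La Lb Lc T = univ := by
    have h1 : closure (range pt)ᶜ ⊆ U La Lb Lc T :=
      closure_minimal (hsub1.trans interior_subset) hclosed
    rw [hdense.closure_eq] at h1
    exact univ_subset_iff.1 h1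
  have : p ∈ U La Lb Lc T := by rw [huniv]; exact mem_univ p
  exact this

end

end Pool.Agent.Lib.MP_776035_co.Tiling
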